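import Pool.Agent.H85.OP.OpC
import Pool.Agent.H85.HW.EarlyX
import Pool.Agent.H85.HW.GUnif
import Pool.Agent.H48.PI.HydU

/-!
# Openness of the basin of equilibrium for rapidly oscillating data

`open_osc`: as H85/HW/LateG, with `open_all` (OpC) in place of `glob_plain0`: the average `avX h` need not be a plane datum. -/

set_option autoImplicit false

open MeasureTheory Set Filter Topology Pool.Agent.H25.Kin Pool.Agent.H48.PL Pool.Agent.H48.PD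
open Pool.Agent.H82.BK Pool.Agent.H82.CM Pool.Agent.H48.PR Pool.Agent.H82.HF Pool.Agent.H48.NE
open Pool.Agent.H85.HW

namespace Pool.Agent.H85.OP

open Pool.Agent.H25.PN Pool.Agent.H48.CV Pool.Agent.H93.CM

variable {d : ℕ} {h : Vec d → Vec d → Vec d → ℝ}

theorem open_osc {s γ : ℝ} (hd : 2 ≤ d) (hs : 0 < s) (h0 : 0 ≤ γ) (hs1 : 2 * s < 1)
    (h2 : γ + 2 * s ≤ 2) {b : ℝ → ℝ} (hb : IsKernel d s b) (hh : Sch2 h)
    (hn : ∀ x y v, 0 ≤ h x y v) (hv : ∀ x y, 0 < ∫ v, h x y v)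
    {a k : ℝ} {u₀ : Vec d} (ha : 0 < a) (hk : 0 < k) (C : ℕ → ℝ) {m : ℝ} (hm : 0 < m)
    {η : ℝ} (hη : 0 < η) :
    ∃ δ : (ℕ → ℝ) → ℝ, (∀ B, 0 < δ B) ∧ (0 < γ → ∀ B B' : ℕ → ℝ, δ B = δ B') ∧
      ∀ (B : ℕ → ℝ) (T₁ : ℝ) (g : ℝ → Vec d → Vec d → ℝ), IsBoltzmannSol γ b T₁ g → g 0 = avX h →
      ∀ T₀ < T₁, ∀ τ > 0, ∃ ε > 0, ∃ n₀ : ℕ, ∃ m₁ > 0,
      ∃ (M₀ : ℝ) (U : ℕ → ℝ), ∀ N ≥ n₀, ∃ m₀ > 0,
      ∀ (T : ℝ) (f : ℝ → Vec d → Vec d → ℝ), (T ≤ T₀ ∨ Close (mx a k u₀) C m (δ B) T₀ g) →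
        IsBoltzmannSol γ b T f →
        (∀ (M : ℕ) (x v : Vec d), (1 + ‖v‖) ^ M * f 0 x v ≤ B M) →
        (∀ x v, |f 0 x v - h x ((N : ℝ) • x) v| ≤ ε) →
        ∀ t ∈ Ico 0 T, ∀ x, HydroBounds m₀ M₀ M₀ M₀ (f t x) ∧
          (∀ (M : ℕ) (v : Vec d), (1 + ‖v‖) ^ M * f t x v ≤ U M) ∧
          (τ ≤ t → m₁ ≤ ∫ v, f t x v) ∧
          (τ ≤ t → t < T₁ → ∀ v, |f t x v - g t x v| ≤ η) ∧
          (T₀ ≤ t → ∀ v, |f t x v - mx a k u₀ v| ≤ η) := by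
  obtain ⟨δ', hδ'0, hδ'c, hop⟩ := open_all hd hs h0 hs1 h2 hb ha hk (u₀ := u₀) C hm
    (η := η / 4) (by positivity)
  have hE := fun B : ℕ → ℝ => early hd hs h0 hs1 h2 hb hh hn hv B
  choose U₁ hU₁ using hE
  refine ⟨fun B => δ' (U₁ B), fun B => hδ'0 _, fun hγ B B' => hδ'c hγ _ _, ?_⟩
  intro B T₁ g hg hg0 T₀ hT₀T τ hτ
  have hpos : ∀ x, 0 < ∫ v, g 0 x v := fun x => by
    rw [hg0]
    exact avX_pos hh hn hv x
  have hol : ∃ α : ℝ, 2 * s < α ∧ α ≤ 1 ∧ HolData α (g 0) :=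
    ⟨1, hs1, le_rfl, by rw [hg0]; exact avX_hol hh⟩
  obtain ⟨hgW, ε₂, hε₂, m₂, hm₂, M₂, U₂, hG2⟩ := hop (U₁ B) T₁ g hg hpos hol T₀ hT₀T
  obtain ⟨T₂, hT₂⟩ : ∃ T₂ : ℝ, T₂ = (T₀ + T₁) / 2 := ⟨_, rfl⟩
  have hT₂a : T₀ < T₂ := by rw [hT₂]; linarith
  have hT₂b : T₂ < T₁ := by rw [hT₂]; linarith
  obtain ⟨δ, hδ, hgu⟩ := g_unif hg hT₂b (half_pos hη)
  obtain ⟨τ', hτ', ε', hε', n₀, hN⟩ :=
    hU₁ B ε₂ hε₂ (min (min τ δ) (min 1 (T₂ - T₀)))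
      (lt_min (lt_min hτ hδ) (lt_min one_pos (by linarith)))
  have hτ0 : 0 < τ' := hτ'.1
  have hττ : τ' ≤ τ := hτ'.2.trans ((min_le_left _ _).trans (min_le_left _ _))
  have hτδ : τ' ≤ δ := hτ'.2.trans ((min_le_left _ _).trans (min_le_right _ _))
  have hτ1 : τ' ≤ 1 := hτ'.2.trans ((min_le_right _ _).trans (min_le_left _ _))
  have hτ2 : τ' ≤ T₂ - T₀ := hτ'.2.trans ((min_le_right _ _).trans (min_le_right _ _))
  obtain ⟨M₀, hM₀⟩ := Pool.Agent.H48.PI.hydro_of_U d fun M => max (U₁ B M) (U₂ M)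
  refine ⟨ε', hε', n₀, m₂, hm₂, M₀, fun M => max (U₁ B M) (U₂ M), fun N hNn => ?_⟩
  obtain ⟨m₀, hm₀, hf1⟩ := hN N hNn
  refine ⟨min m₀ m₂, lt_min hm₀ hm₂, fun T f hTT hf hfB hfε => ?_⟩
  obtain ⟨hearly, hclose⟩ := hf1 T f hf hfB hfε
  have hlate : ∀ t ∈ Ico 0 T, τ' ≤ t → ∀ x, HydroBounds m₂ M₂ M₂ M₂ (f t x) ∧
      (∀ (M : ℕ) (v : Vec d), (1 + ‖v‖) ^ M * f t x v ≤ U₂ M) ∧
      (t - τ' < T₁ → ∀ v, |f t x v - g (t - τ') x v| ≤ η / 4) ∧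
      (T₀ ≤ t - τ' → ∀ v, |f t x v - mx a k u₀ v| ≤ η / 4) := by
    intro t ht htτ x
    have hτT : τ' < T := lt_of_le_of_lt htτ ht.2
    have hfs := Pool.Agent.H48.PI.boltz_shift hf hτ0.le
    have hkey := hG2 (T - τ') (fun t => f (τ' + t)) ?_ hfs ?_ ?_ (t - τ')
      ⟨by linarith, by linarith [ht.2]⟩ x
    · have e : τ' + (t - τ') = t := by ring
      simp only [e] at hkey
      exact hkey
    · rcases hTT with hc | hc
      · left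
        linarith
      · right
        exact hc
    · intro M y v
      show (1 + ‖v‖) ^ M * f (τ' + 0) y v ≤ U₁ B M
      rw [add_zero]
      exact (hearly τ' ⟨hτ0.le, hτT⟩ le_rfl y).1 M v
    · intro y v
      show |f (τ' + 0) y v - g 0 y v| ≤ ε₂
      rw [add_zero, hg0]
      exact hclose hτT y v
  have hUall : ∀ M : ℕ, ∀ t ∈ Ico 0 T, ∀ x v,
      (1 + ‖v‖) ^ M * f t x v ≤ max (U₁ B M) (U₂ M) := by
    intro M t ht x v
    rcases le_total t τ' with hc | hc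
    · exact ((hearly t ht hc x).1 M v).trans (le_max_left _ _)
    · exact ((hlate t ht hc x).2.1 M v).trans (le_max_right _ _)
  have hgd : ∀ t ∈ Icc τ' T₂, ∀ x v, |g (t - τ') x v - g t x v| ≤ η / 2 := by
    intro t ht x v
    refine hgu (t - τ') ⟨by linarith [ht.1], by linarith [ht.2]⟩ t
      ⟨by linarith [ht.1], ht.2⟩ ?_ x v
    rw [show t - τ' - t = -τ' by ring, abs_neg, abs_of_pos hτ0]
    exact hτδ
  intro t ht x
  obtain ⟨y1, y2, y3⟩ := hM₀ T _ f hf hUall t ht x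
  refine ⟨⟨?_, y1, y2, y3⟩, fun M v => hUall M t ht x v, fun hc => ?_, fun hc htT v => ?_,
    fun hc v => ?_⟩
  · rcases le_total t τ' with hc | hc
    · exact (min_le_left _ _).trans (hearly t ht hc x).2
    · exact (min_le_right _ _).trans (hlate t ht hc x).1.1
  · exact (hlate t ht (hττ.trans hc) x).1.1
  · have htτ : τ' ≤ t := hττ.trans hc
    have h3 : |f t x v - g (t - τ') x v| ≤ η / 4 := (hlate t ht htτ x).2.2.1 (by linarith) v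
    have h4 : |g (t - τ') x v - g t x v| ≤ η / 2 := by
      by_cases hc2 : t ≤ T₂
      · exact hgd t ⟨htτ, hc2⟩ x v
      · have hc3 : T₂ < t := not_le.1 hc2
        have hc4 : Close (mx a k u₀) C m (δ' (U₁ B)) T₀ g :=
          hTT.resolve_left fun hc5 => by linarith [ht.2]
        have h5 := hgW hc4 (t - τ') ⟨by linarith, by linarith⟩ x v
        have h6 := hgW hc4 t ⟨by linarith, htT⟩ x v
        rw [abs_le] at h5 h6 ⊢
        constructor <;> linarith [h5.1, h5.2, h6.1, h6.2]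
    rw [abs_le] at h3 h4 ⊢
    constructor <;> linarith [h3.1, h3.2, h4.1, h4.2]
  · have hc4 : Close (mx a k u₀) C m (δ' (U₁ B)) T₀ g :=
      hTT.resolve_left fun hc5 => by linarith [ht.2]
    have hT₀1 : 1 ≤ T₀ := hc4.1
    have hc1 : τ' ≤ t := by linarith
    rcases le_or_gt T₀ (t - τ') with hc2 | hc2
    · exact ((hlate t ht hc1 x).2.2.2 hc2 v).trans (by linarith)
    · have hc3 : t ≤ T₂ := by linarith
      have h3 : |f t x v - g (t - τ') x v| ≤ η / 4 :=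
        (hlate t ht hc1 x).2.2.1 (by linarith) v
      have h4 := hgd t ⟨hc1, hc3⟩ x v
      have h6 := hgW hc4 t ⟨hc, by linarith⟩ x v
      rw [abs_le] at h3 h4 h6 ⊢
      constructor <;> linarith [h3.1, h3.2, h4.1, h4.2, h6.1, h6.2]

end Pool.Agent.H85.OP
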