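import Pool.Agent.H85.OP.OpA
import Pool.Agent.H15.NE0.Prop0
import Pool.Agent.H48.NE.GenN

/-!
# Openness of the basin of equilibrium, `γ ≥ 0`

`open_gen`: `open_core` (OpA) with the generation (`γ > 0`, `genN`) or the propagation (`γ ≥ 0`, `prop0`) of the decay constants.
-/

set_option autoImplicit false

open MeasureTheory Set Filter Topology Pool.Agent.H25.Kin Pool.Agent.H48.PL Pool.Agent.H48.PD
open Pool.Agent.H82.BK Pool.Agent.H82.CM Pool.Agent.H48.PR Pool.Agent.H93.CM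
open Pool.Agent.H48.NE Pool.Agent.H48.CV Pool.Agent.H15.NE0

namespace Pool.Agent.H85.OP

variable {d : ℕ}

/-- the solution `g` on `[0,T₁)` obeys the bounds `C`, `m` on `[0,T₀]` and is at the time `T₀` uniformly close to `W` -/
structure Ref {d : ℕ} (s γ : ℝ) (b : ℝ → ℝ) (W : Vec d → ℝ) (C : ℕ → ℝ) (m δ T₀ T₁ : ℝ)
    (g : ℝ → Vec d → Vec d → ℝ) : Prop where
  sol : IsBoltzmannSol γ b T₁ g
  pos : ∀ x, 0 < ∫ v, g 0 x v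
  hol : ∃ α : ℝ, 2 * s < α ∧ α ≤ 1 ∧ HolData α (g 0)
  one_le : 1 ≤ T₀
  lt : T₀ < T₁
  bd : ∀ t ∈ Icc 0 T₀, ∀ x, (∀ (N : ℕ) (v : Vec d), (1 + ‖v‖) ^ N * g t x v ≤ C N) ∧
    m ≤ ∫ v, g t x v
  close : ∀ x v, |g T₀ x v - W v| ≤ δ

theorem open_gen {s γ : ℝ} (hd : 2 ≤ d) (hs : 0 < s) (h0 : 0 ≤ γ) (hs2 : 2 * s < 1)
    (h2 : γ + 2 * s ≤ 2) {b : ℝ → ℝ} (hb : IsKernel d s b)
    {a k : ℝ} {u₀ : Vec d} (ha : 0 < a) (hk : 0 < k) (C : ℕ → ℝ) {m : ℝ} (hm : 0 < m)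
    {η : ℝ} (hη : 0 < η) :
    ∃ δ : (ℕ → ℝ) → ℝ, (∀ B, 0 < δ B) ∧ (0 < γ → ∀ B B' : ℕ → ℝ, δ B = δ B') ∧
      ∀ (B : ℕ → ℝ) (T₀ T₁ : ℝ) (g : ℝ → Vec d → Vec d → ℝ),
      Ref s γ b (mx a k u₀) C m (δ B) T₀ T₁ g →
      (∀ t ∈ Ico T₀ T₁, ∀ x v, |g t x v - mx a k u₀ v| ≤ η) ∧
      ∃ ε > 0, ∃ m₀ > 0, ∃ (M₀ : ℝ) (U : ℕ → ℝ),
      ∀ (T : ℝ) (f : ℝ → Vec d → Vec d → ℝ), IsBoltzmannSol γ b T f →
        (∀ (N : ℕ) (x v : Vec d), (1 + ‖v‖) ^ N * f 0 x v ≤ B N) → (∀ x v, |f 0 x v - g 0 x v| ≤ ε) →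
        ∀ t ∈ Ico 0 T, ∀ x, HydroBounds m₀ M₀ M₀ M₀ (f t x) ∧
          (∀ (N : ℕ) (v : Vec d), (1 + ‖v‖) ^ N * f t x v ≤ U N) ∧
          (t < T₁ → ∀ v, |f t x v - g t x v| ≤ η) ∧ (T₀ ≤ t → ∀ v, |f t x v - mx a k u₀ v| ≤ η) := by
  rcases h0.lt_or_eq with hγ | hγ
  · obtain ⟨δ, hδ, h⟩ := open_core (S := univ) hd hs h0 hs2 h2 hb ha hk (u₀ := u₀) C hm hη
      (fun A₁ R₁ m' hm' => by
        obtain ⟨U, hU⟩ := genN hd ⟨hs, by linarith⟩ hγ h2 hb (le_refl (d + 10)) A₁ R₁ hm'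
        exact ⟨U, fun B _ T f hf _ h1 h3 t ht => hU T f hf h1 h3 t ht⟩)
    exact ⟨fun _ => δ, fun _ => hδ, fun _ _ _ => rfl, fun B T₀ T₁ g hg =>
      h B (mem_univ _) T₁ g hg.sol hg.pos hg.hol T₀ ⟨hg.one_le, hg.lt⟩ hg.bd hg.close⟩
  · have hex : ∀ B : ℕ → ℝ, _ := fun B =>
      open_core (S := {B}) hd hs h0 hs2 h2 hb ha hk (u₀ := u₀) C hm hη
      (fun A₁ R₁ m' hm' => by
        obtain ⟨U, hU⟩ := prop0 hd ⟨hs, by linarith⟩ h0 h2 hb (le_refl (d + 10)) A₁ R₁ hm' B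
        refine ⟨U, fun B' hB' T f hf hfB h1 h3 t ht => ?_⟩
        rw [mem_singleton_iff.1 hB'] at hfB
        exact hU T f hf hfB h1 h3 t ⟨by linarith [ht.1], ht.2⟩)
    choose δ hδ h using hex
    exact ⟨δ, hδ, fun h' => absurd hγ h'.ne, fun B T₀ T₁ g hg =>
      h B B (mem_singleton B) T₁ g hg.sol hg.pos hg.hol T₀ ⟨hg.one_le, hg.lt⟩ hg.bd hg.close⟩

end Pool.Agent.H85.OP
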