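import Pool.Agent.H85.OP.OpB
import Pool.Agent.H93.CM.Final

/-!
# Openness of the basin of equilibrium: finite and infinite life times in one statement

`open_fin`: stability on finite time intervals around an arbitrary classical solution with Hoelder initial value without vacuum (`stabO`;
the lower bound of the mass density is `boltz_noVac`, H93/CM). `open_all`: `open_fin` and `open_gen` in one statement.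
-/

set_option autoImplicit false

open MeasureTheory Set Filter Topology Pool.Agent.H25.Kin Pool.Agent.H48.PL Pool.Agent.H48.PD
open Pool.Agent.H82.BK Pool.Agent.H82.CM Pool.Agent.H48.PR Pool.Agent.H93.CM
open Pool.Agent.H48.NE Pool.Agent.H48.CV Pool.Agent.H15.NE0

namespace Pool.Agent.H85.OP

variable {d : ℕ}

/-- the solution `g` obeys the bounds `C`, `m` on `[0,T₀]` and is at the time `T₀` uniformly close to `W` -/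
def Close {d : ℕ} (W : Vec d → ℝ) (C : ℕ → ℝ) (m δ T₀ : ℝ) (g : ℝ → Vec d → Vec d → ℝ) : Prop :=
  1 ≤ T₀ ∧
  (∀ t ∈ Icc 0 T₀, ∀ x, (∀ (N : ℕ) (v : Vec d), (1 + ‖v‖) ^ N * g t x v ≤ C N) ∧
    m ≤ ∫ v, g t x v) ∧
  ∀ x v, |g T₀ x v - W v| ≤ δ

theorem open_fin {s γ : ℝ} (hd : 2 ≤ d) (hs : 0 < s) (h0 : 0 ≤ γ) (hs2 : 2 * s < 1)
    (h2 : γ + 2 * s ≤ 2) {b : ℝ → ℝ} (hb : IsKernel d s b) {η : ℝ} (hη : 0 < η) (B : ℕ → ℝ)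
    {T₀ T₁ : ℝ} (hT : T₀ < T₁) {g : ℝ → Vec d → Vec d → ℝ} (hg : IsBoltzmannSol γ b T₁ g)
    (hpos : ∀ x, 0 < ∫ v, g 0 x v) (hol : ∃ α : ℝ, 2 * s < α ∧ α ≤ 1 ∧ HolData α (g 0)) :
    ∃ ε > 0, ∃ m₀ > 0, ∃ (M₀ : ℝ) (U : ℕ → ℝ),
      ∀ (T : ℝ) (f : ℝ → Vec d → Vec d → ℝ), T ≤ T₀ → IsBoltzmannSol γ b T f →
        (∀ (N : ℕ) (x v : Vec d), (1 + ‖v‖) ^ N * f 0 x v ≤ B N) → (∀ x v, |f 0 x v - g 0 x v| ≤ ε) →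
        ∀ t ∈ Ico 0 T, ∀ x, HydroBounds m₀ M₀ M₀ M₀ (f t x) ∧
          (∀ (N : ℕ) (v : Vec d), (1 + ‖v‖) ^ N * f t x v ≤ U N) ∧
          (∀ v, |f t x v - g t x v| ≤ η) := by
  obtain ⟨T₂, hT₂⟩ : ∃ T₂ : ℝ, T₂ = (T₀ + T₁) / 2 := ⟨_, rfl⟩
  have hT₂a : T₀ < T₂ := by rw [hT₂]; linarith
  have hT₂b : T₂ < T₁ := by rw [hT₂]; linarith
  have hg' : IsClassicalSol T₁ (fun t x => boltzQ γ b (g t x)) g := hg
  have hgr : IsBoltzmannSol γ b T₂ g := Pool.Agent.H48.PI.sol_restrict hg' hT₂b.le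
  have hr : RapidUpTo T₂ g := fun N => by
    obtain ⟨D, hD⟩ := hg'.decay T₂ hT₂b N
    exact ⟨D, fun t ht x v => hD t ⟨ht.1, ht.2.le⟩ x v⟩
  obtain ⟨m₀, hm₀, M, E, H, hb'⟩ :=
    boltz_noVac hd ⟨hs, by linarith⟩ (by linarith) h2 hb hgr hr hpos
  obtain ⟨ε, hε, U, hst⟩ := stabO hd hs h0 hs2 h2 hb hT₂a hgr hpos hol hm₀
    (fun t ht x => (hb' t ht x).1) B (le_refl (d + 10)) hη
  obtain ⟨M₀, hM₀⟩ := Pool.Agent.H48.PI.hydro_of_U d U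
  refine ⟨ε, hε, m₀ / 2, half_pos hm₀, M₀, U, fun T f hTT hf hfB hfε t ht x => ?_⟩
  have key := hst T hTT f hf hfB hfε
  obtain ⟨g1, g2, g3⟩ := hM₀ T _ f hf (fun N t ht x v => (key t ht x).1 N v) t ht x
  refine ⟨⟨(key t ht x).2.1, g1, g2, g3⟩, (key t ht x).1, fun v => ?_⟩
  exact ((key t ht x).2.2 v).trans (mul_le_of_le_one_right hη.le (Wp_le_one _ v))

theorem open_all {s γ : ℝ} (hd : 2 ≤ d) (hs : 0 < s) (h0 : 0 ≤ γ) (hs2 : 2 * s < 1)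
    (h2 : γ + 2 * s ≤ 2) {b : ℝ → ℝ} (hb : IsKernel d s b)
    {a k : ℝ} {u₀ : Vec d} (ha : 0 < a) (hk : 0 < k) (C : ℕ → ℝ) {m : ℝ} (hm : 0 < m)
    {η : ℝ} (hη : 0 < η) :
    ∃ δ : (ℕ → ℝ) → ℝ, (∀ B, 0 < δ B) ∧ (0 < γ → ∀ B B' : ℕ → ℝ, δ B = δ B') ∧
      ∀ (B : ℕ → ℝ) (T₁ : ℝ) (g : ℝ → Vec d → Vec d → ℝ), IsBoltzmannSol γ b T₁ g →
      (∀ x, 0 < ∫ v, g 0 x v) → (∃ α : ℝ, 2 * s < α ∧ α ≤ 1 ∧ HolData α (g 0)) →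
      ∀ T₀ < T₁,
      (Close (mx a k u₀) C m (δ B) T₀ g →
        ∀ t ∈ Ico T₀ T₁, ∀ x v, |g t x v - mx a k u₀ v| ≤ η) ∧
      ∃ ε > 0, ∃ m₀ > 0, ∃ (M₀ : ℝ) (U : ℕ → ℝ),
      ∀ (T : ℝ) (f : ℝ → Vec d → Vec d → ℝ), (T ≤ T₀ ∨ Close (mx a k u₀) C m (δ B) T₀ g) →
        IsBoltzmannSol γ b T f →
        (∀ (N : ℕ) (x v : Vec d), (1 + ‖v‖) ^ N * f 0 x v ≤ B N) → (∀ x v, |f 0 x v - g 0 x v| ≤ ε) →
        ∀ t ∈ Ico 0 T, ∀ x, HydroBounds m₀ M₀ M₀ M₀ (f t x) ∧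
          (∀ (N : ℕ) (v : Vec d), (1 + ‖v‖) ^ N * f t x v ≤ U N) ∧
          (t < T₁ → ∀ v, |f t x v - g t x v| ≤ η) ∧ (T₀ ≤ t → ∀ v, |f t x v - mx a k u₀ v| ≤ η) := by
  obtain ⟨δ, hδ, hδc, h⟩ := open_gen hd hs h0 hs2 h2 hb ha hk (u₀ := u₀) C hm hη
  refine ⟨δ, hδ, hδc, fun B T₁ g hg hpos hol T₀ hT => ?_⟩
  by_cases hc : Close (mx a k u₀) C m (δ B) T₀ g
  · obtain ⟨h3, ε, hε, m₀, hm₀, M₀, U, h4⟩ :=
      h B T₀ T₁ g ⟨hg, hpos, hol, hc.1, hT, hc.2.1, hc.2.2⟩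
    exact ⟨fun _ => h3, ε, hε, m₀, hm₀, M₀, U, fun T f _ => h4 T f⟩
  · obtain ⟨ε, hε, m₀, hm₀, M₀, U, h4⟩ := open_fin hd hs h0 hs2 h2 hb hη B hT hg hpos hol
    refine ⟨fun h => absurd h hc, ε, hε, m₀, hm₀, M₀, U, fun T f hTT hf hfB hfε t ht x => ?_⟩
    have hTT' : T ≤ T₀ := hTT.resolve_right hc
    obtain ⟨h5, h6, h7⟩ := h4 T f hTT' hf hfB hfε t ht x
    exact ⟨h5, h6, fun _ => h7, fun h8 => absurd (ht.2.trans_le hTT') (not_lt.2 h8)⟩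

end Pool.Agent.H85.OP
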