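import Pool.Agent.H48.CV.MxU
import Pool.Agent.H85.HW.LateG
import Pool.Agent.H15.HC.Fin
import Pool.Agent.H85.OP.OpD

/-!
# Global bounds without symmetry near large data, and convergence to equilibrium, non-cutoff Boltzmann equation

For large initial values `F₀` which depend on `x` only through `ν · x` (`γ ≥ 1`; for `0 ≤ γ < 1`: `F₀` helical, for example independent
of `x`, or of small total mass): every solution with this initial value converges to its Maxwellian, and EVERY classical solution with an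
initial value uniformly close to `F₀`, or to rapidly oscillating data `h(x, n x, v)` with the average `F₀`, satisfies the four
hydrodynamic bounds with constants that do not depend on its life time; no symmetry and no regularity beyond continuity assumed.
The same holds near every bounded solution on `[0,∞)`, without symmetry, which has a Maxwellian in the closure of its orbit.
-/

set_option autoImplicit false

open MeasureTheory Set Pool.Agent.H25.Kin Pool.Agent.H82.BK Pool.Agent.H93.CM Pool.Agent.H48.PL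

namespace Pool.Agent.H85.OP.V5

/-- initial values: nonnegative, 1-periodic, rapid decay, no vacuum, function of `ν · x` and `v`, Hoelder continuous in `(x, v)`
of some order in `(2 s, 1]` with a constant which grows at most polynomially in `v` -/
def Datum {d : ℕ} (s : ℝ) (ν : Vec d) (F : Vec d → Vec d → ℝ) : Prop :=
  (∀ x v, 0 ≤ F x v) ∧ (∀ x v i, F (x + Pi.single i 1) v = F x v) ∧
  (∀ N : ℕ, ∃ C, ∀ x v, (1 + ‖v‖) ^ N * F x v ≤ C) ∧ (∀ x, 0 < ∫ v, F x v) ∧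
  (∀ x y v, ∑ i, ν i * x i = ∑ i, ν i * y i → F x v = F y v) ∧
  ∃ α : ℝ, 2 * s < α ∧ α ≤ 1 ∧ ∃ (A : ℝ) (k : ℕ), ∀ x y v w : Vec d,
    |F x v - F y w| ≤ A * (1 + ‖v‖ + ‖w‖) ^ k * (‖x - y‖ + ‖v - w‖) ^ α

/-- helical initial values: every translation in space is compensated by a linear isometry `A` of the velocities with
`ν · A v = ν · v`; for example `F₀` independent of `x` (`A = 1`), or `F₀(x, v) = G(R(-ν · x) v)` with rotations `R(τ)` around `ν` -/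
def Helical {d : ℕ} (ν : Vec d) (F : Vec d → Vec d → ℝ) : Prop :=
  ∀ y : Vec d, ∃ A : Vec d ≃ₗ[ℝ] Vec d, (∀ z, nsq (A z) = nsq z) ∧
    (∀ z, ∑ i, ν i * A z i = ∑ i, ν i * z i) ∧ ∀ x v, F (x + y) (A v) = F x v

/-- two-scale profiles `h(x, y, v)` with the average `F₀` over the fast variable `y`: nonnegative, 1-periodic in `x` and in `y`,
smooth, all derivatives decay rapidly in `v`, no vacuum -/
def TwoScale {d : ℕ} (F₀ : Vec d → Vec d → ℝ) (h : Vec d → Vec d → Vec d → ℝ) : Prop :=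
  (∀ x y v, 0 ≤ h x y v) ∧
  (∀ x y v i, h (x + Pi.single i 1) y v = h x y v ∧ h x (y + Pi.single i 1) v = h x y v) ∧
  (∀ x y, 0 < ∫ v, h x y v) ∧
  (∀ n : ℕ, ContDiff ℝ n (fun p : Vec d × Vec d × Vec d => h p.1 p.2.1 p.2.2)) ∧
  (∀ N m : ℕ, ∃ C : ℝ, ∀ x y v, (1 + ‖v‖) ^ N *
    ‖iteratedFDeriv ℝ m (fun p : Vec d × Vec d × Vec d => h p.1 p.2.1 p.2.2) (x, y, v)‖ ≤ C) ∧
  ∀ x v, ∫ y in Icc (0 : Vec d) 1, h x y v = F₀ x v

/-- the conclusion for the initial value `F₀`; `a exp(-k |v-u|²)` is the Maxwellian with the mass, momentum and energy of `F₀` -/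
def Stable {d : ℕ} (γ : ℝ) (b : ℝ → ℝ) (F₀ : Vec d → Vec d → ℝ) : Prop :=
  ∃ (a k : ℝ) (u : Vec d), 0 < a ∧ 0 < k ∧
    (∫ x in Icc (0 : Vec d) 1, ∫ v, F₀ x v = ∫ v, a * Real.exp (-(k * nsq (v - u)))) ∧
    (∀ i, ∫ x in Icc (0 : Vec d) 1, ∫ v, F₀ x v * v i =
      ∫ v, a * Real.exp (-(k * nsq (v - u))) * v i) ∧
    (∫ x in Icc (0 : Vec d) 1, ∫ v, F₀ x v * nsq v =
      ∫ v, a * Real.exp (-(k * nsq (v - u))) * nsq v) ∧
    -- (1) the solutions with the initial value `F₀` converge to the Maxwellian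
    (∀ (N : ℕ), ∀ η > 0, ∃ L : ℝ, ∀ (T : ℝ) (f : ℝ → Vec d → Vec d → ℝ),
      IsBoltzmannSol γ b T f → f 0 = F₀ → ∀ t ∈ Ico L T, ∀ x v,
        (1 + ‖v‖) ^ N * |f t x v - a * Real.exp (-(k * nsq (v - u)))| ≤ η) ∧
    -- (2) bounds and closeness for all solutions `f` with initial values near `F₀`
    -- (the time `Ts` does not depend on the decay constants `B` if `γ > 0`)
    (∀ η > 0, ∃ Ts : (ℕ → ℝ) → ℝ, (0 < γ → ∀ B B' : ℕ → ℝ, Ts B = Ts B') ∧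
      ∀ (B : ℕ → ℝ) (T₁ : ℝ) (g : ℝ → Vec d → Vec d → ℝ), IsBoltzmannSol γ b T₁ g → g 0 = F₀ →
      ∀ T₀ < T₁, ∃ ε > 0, ∃ m₀ > 0, ∃ (M₀ : ℝ) (U : ℕ → ℝ),
      ∀ (T : ℝ) (f : ℝ → Vec d → Vec d → ℝ), (T ≤ T₀ ∨ Ts B < T₁) → IsBoltzmannSol γ b T f →
        (∀ (N : ℕ) (x v : Vec d), (1 + ‖v‖) ^ N * f 0 x v ≤ B N) → (∀ x v, |f 0 x v - F₀ x v| ≤ ε) →
        ∀ t ∈ Ico 0 T, ∀ x, HydroBounds m₀ M₀ M₀ M₀ (f t x) ∧
          (∀ (N : ℕ) (v : Vec d), (1 + ‖v‖) ^ N * f t x v ≤ U N) ∧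
          (t < T₁ → ∀ v, |f t x v - g t x v| ≤ η) ∧
          (Ts B ≤ t → ∀ v, |f t x v - a * Real.exp (-(k * nsq (v - u)))| ≤ η)) ∧
    -- (3) the same for all solutions `f` with initial values near `h(x, n x, v)`, `n` large, where `h` has the average `F₀`
    ∀ h : Vec d → Vec d → Vec d → ℝ, TwoScale F₀ h →
    ∀ η > 0, ∃ Ts : (ℕ → ℝ) → ℝ, (0 < γ → ∀ B B' : ℕ → ℝ, Ts B = Ts B') ∧
      ∀ (B : ℕ → ℝ) (T₁ : ℝ) (g : ℝ → Vec d → Vec d → ℝ), IsBoltzmannSol γ b T₁ g → g 0 = F₀ →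
      ∀ T₀ < T₁, ∀ τ > 0, ∃ ε > 0, ∃ n₀ : ℕ, ∃ m₁ > 0, ∃ (M₀ : ℝ) (U : ℕ → ℝ), ∀ n ≥ n₀, ∃ m₀ > 0,
      ∀ (T : ℝ) (f : ℝ → Vec d → Vec d → ℝ), (T ≤ T₀ ∨ Ts B < T₁) → IsBoltzmannSol γ b T f →
        (∀ (N : ℕ) (x v : Vec d), (1 + ‖v‖) ^ N * f 0 x v ≤ B N) →
        (∀ x v, |f 0 x v - h x ((n : ℝ) • x) v| ≤ ε) →
        ∀ t ∈ Ico 0 T, ∀ x, HydroBounds m₀ M₀ M₀ M₀ (f t x) ∧
          (∀ (N : ℕ) (v : Vec d), (1 + ‖v‖) ^ N * f t x v ≤ U N) ∧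
          (τ ≤ t → m₁ ≤ ∫ v, f t x v) ∧
          (τ ≤ t → t < T₁ → ∀ v, |f t x v - g t x v| ≤ η) ∧
          (Ts B ≤ t → ∀ v, |f t x v - a * Real.exp (-(k * nsq (v - u)))| ≤ η)

/-- solutions in the basin of the equilibrium `W`: a classical solution on `[0,∞)` of any shape (no symmetry), whose initial value has
no vacuum and is Hoelder continuous of some order in `(2 s, 1]` with a constant which grows at most polynomially in `v`; with decay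
constants and a lower bound of the mass density which do not depend on time; at some times arbitrarily close to `W` -/
def Basin {d : ℕ} (s γ : ℝ) (b : ℝ → ℝ) (W : Vec d → ℝ) (g : ℝ → Vec d → Vec d → ℝ) : Prop :=
  (∀ T, IsBoltzmannSol γ b T g) ∧ (∀ x, 0 < ∫ v, g 0 x v) ∧
  (∃ α : ℝ, 2 * s < α ∧ α ≤ 1 ∧ ∃ (A : ℝ) (k : ℕ), ∀ x y v w : Vec d,
    |g 0 x v - g 0 y w| ≤ A * (1 + ‖v‖ + ‖w‖) ^ k * (‖x - y‖ + ‖v - w‖) ^ α) ∧
  (∃ (C : ℕ → ℝ) (m : ℝ), 0 < m ∧ ∀ t, 0 ≤ t → ∀ x,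
    (∀ (N : ℕ) (v : Vec d), (1 + ‖v‖) ^ N * g t x v ≤ C N) ∧ m ≤ ∫ v, g t x v) ∧
  ∀ δ > 0, ∃ t, 0 ≤ t ∧ ∀ x v, |g t x v - W v| ≤ δ

private theorem stable_of {d : ℕ} (hd : 2 ≤ d) {s γ : ℝ} (hs : 0 < s) (hs1 : 2 * s < 1) (hγ : 0 ≤ γ)
    (h2 : γ + 2 * s < 2) {b : ℝ → ℝ} (hb : IsKernel d s b) {ν : Vec d} (hν : ν ≠ 0)
    {F₀ : Vec d → Vec d → ℝ} (hD : Datum s ν F₀) (hPD : Pool.Agent.H48.PR.PlaneData s ν F₀)
    (hS : Pool.Agent.H15.AV.Slice F₀)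
    (hU : Pool.Agent.H48.CV.UB d γ b (Pool.Agent.H25.PN.PlaneSym ν) F₀) : Stable γ b F₀ := by
  obtain ⟨a, k, u, ha, hk, m1, m2, m3, c1, c2⟩ :=
    Pool.Agent.H15.NE0.glob_plain0 hd hs hγ hs1 h2 hb hν hPD hS hU
  refine ⟨a, k, u, ha, hk, m1, m2, m3, c1, c2, fun h hh => ?_⟩
  obtain ⟨h0, hper, hv, hc, hdec, hav⟩ := hh
  have hF : Pool.Agent.H85.HW.avX h = F₀ := by
    funext x v
    exact hav x v
  obtain ⟨a', k', u', ha', hk', m1', m2', m3', c3⟩ := Pool.Agent.H85.HW.w_glob hd hs hγ hs1 h2 hb hν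
    ⟨hc, fun x y v i => (hper x y v i).1, fun x y v i => (hper x y v i).2, hdec⟩ h0 hv
    (by rw [hF]; exact hD.2.2.2.2.1) (by rw [hF]; exact hU)
  rw [hF] at m1' m2' m3' c3
  have e : ∀ v : Vec d, a' * Real.exp (-(k' * nsq (v - u'))) = a * Real.exp (-(k * nsq (v - u))) :=
    Pool.Agent.H48.CV.mx_ext ha' hk' ha hk u' u (m1'.symm.trans m1)
      (fun i => (m2' i).symm.trans (m2 i)) (m3'.symm.trans m3)
  simp only [e] at c3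
  exact c3

theorem result {d : ℕ} (hd : 2 ≤ d) {s γ : ℝ} (hs : 0 < s) (hs1 : 2 * s < 1) (hγ : 0 ≤ γ)
    (h2 : γ + 2 * s < 2) {b : ℝ → ℝ} (hb : IsKernel d s b) {ν : Vec d} (hν : ν ≠ 0) :
    -- (4) openness: all solutions near a solution `g` in the basin of a Maxwellian, no symmetry
    (∀ (a k : ℝ) (u : Vec d), 0 < a → 0 < k → ∀ g : ℝ → Vec d → Vec d → ℝ,
      Basin s γ b (fun v => a * Real.exp (-(k * nsq (v - u)))) g →
      (∀ η > 0, ∀ B : ℕ → ℝ, ∃ Ts : ℝ, ∃ ε > 0, ∃ m₀ > 0, ∃ (M₀ : ℝ) (U : ℕ → ℝ),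
        ∀ (T : ℝ) (f : ℝ → Vec d → Vec d → ℝ), IsBoltzmannSol γ b T f →
          (∀ (N : ℕ) (x v : Vec d), (1 + ‖v‖) ^ N * f 0 x v ≤ B N) → (∀ x v, |f 0 x v - g 0 x v| ≤ ε) →
          ∀ t ∈ Ico 0 T, ∀ x, HydroBounds m₀ M₀ M₀ M₀ (f t x) ∧
            (∀ (N : ℕ) (v : Vec d), (1 + ‖v‖) ^ N * f t x v ≤ U N) ∧
            (∀ v, |f t x v - g t x v| ≤ η) ∧
            (Ts ≤ t → ∀ v, |f t x v - a * Real.exp (-(k * nsq (v - u)))| ≤ η)) ∧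
      ∀ h : Vec d → Vec d → Vec d → ℝ, TwoScale (g 0) h →
      ∀ η > 0, ∀ B : ℕ → ℝ, ∃ Ts : ℝ, ∀ τ > 0, ∃ ε > 0, ∃ n₀ : ℕ, ∃ m₁ > 0, ∃ (M₀ : ℝ) (U : ℕ → ℝ),
        ∀ n ≥ n₀, ∃ m₀ > 0, ∀ (T : ℝ) (f : ℝ → Vec d → Vec d → ℝ), IsBoltzmannSol γ b T f →
          (∀ (N : ℕ) (x v : Vec d), (1 + ‖v‖) ^ N * f 0 x v ≤ B N) →
          (∀ x v, |f 0 x v - h x ((n : ℝ) • x) v| ≤ ε) →
          ∀ t ∈ Ico 0 T, ∀ x, HydroBounds m₀ M₀ M₀ M₀ (f t x) ∧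
            (∀ (N : ℕ) (v : Vec d), (1 + ‖v‖) ^ N * f t x v ≤ U N) ∧
            (τ ≤ t → m₁ ≤ ∫ v, f t x v) ∧ (τ ≤ t → ∀ v, |f t x v - g t x v| ≤ η) ∧
            (Ts ≤ t → ∀ v, |f t x v - a * Real.exp (-(k * nsq (v - u)))| ≤ η)) ∧
    -- (1), (2), (3) for large plane data
    (1 ≤ γ → ∀ F₀ : Vec d → Vec d → ℝ, Datum s ν F₀ → Stable γ b F₀) ∧
    (γ < 1 →
      (∀ F₀ : Vec d → Vec d → ℝ, Datum s ν F₀ → Helical ν F₀ → Stable γ b F₀) ∧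
      ∀ p : ℕ, (d : ℝ) + γ + 4 ≤ 2 * p → ∀ α : ℝ, ∃ M > 0, ∀ F₀ : Vec d → Vec d → ℝ, Datum s ν F₀ →
        (∫ x in Icc (0 : Vec d) 1, ∫ v, F₀ x v) ≤ M →
        (∀ x v, F₀ x v * (1 + nsq v) ^ p ≤ α * ∫ x in Icc (0 : Vec d) 1, ∫ v, F₀ x v) →
        Stable γ b F₀) := by
  have cv : ∀ F : Vec d → Vec d → ℝ, Datum s ν F → Pool.Agent.H48.PR.PlaneData s ν F := by
    rintro F ⟨-, -, -, h0, hP, α, ha, ha1, A, k, hA⟩
    exact ⟨fun x y v hxy => hP x y v hxy, h0, α, ha, ha1, A, k, hA⟩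
  have cs : ∀ F : Vec d → Vec d → ℝ, Datum s ν F → Pool.Agent.H15.AV.Slice F := by
    rintro F ⟨h1, h3, h4, -, -, α, ha, ha1, A, k, hA⟩
    refine ⟨h1, h3, ?_, h4⟩
    exact Pool.Agent.H48.CV.cont_of_hol (by linarith) hA
  refine ⟨fun a k u ha hk g hg => ⟨fun η hη B => ?_, fun h hh η hη B => ?_⟩, fun h1 F₀ hD => ?_,
    fun h1 => ⟨fun F₀ hD hom => ?_, fun p hp α => ?_⟩⟩
  · obtain ⟨g1, g2, g3, ⟨C, m, hm, hC⟩, g4⟩ := hg
    exact Pool.Agent.H85.OP.open_global hd hs hγ hs1 h2.le hb ha hk g1 g2 g3 hm hC g4 hη B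
  · obtain ⟨g1, g2, g3, ⟨C, m, hm, hC⟩, g4⟩ := hg
    obtain ⟨h0, hper, hv, hc, hdec, hav⟩ := hh
    have hF : g 0 = Pool.Agent.H85.HW.avX h := by
      funext x v
      exact (hav x v).symm
    exact Pool.Agent.H85.OP.open_global_osc hd hs hγ hs1 h2.le hb
      ⟨hc, fun x y v i => (hper x y v i).1, fun x y v i => (hper x y v i).2, hdec⟩ h0 hv ha hk g1
      hF hm hC g4 hη B
  · exact stable_of hd hs hs1 hγ h2 hb hν hD (cv F₀ hD) (cs F₀ hD)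
      (Pool.Agent.H48.CV.ub_ge hd hs h1 h2 hb hν (cv F₀ hD))
  · exact stable_of hd hs hs1 hγ h2 hb hν hD (cv F₀ hD) (cs F₀ hD)
      (Pool.Agent.H15.HC.hel_UB hd hs hγ h1 hs1 hb (cv F₀ hD) hom (cs F₀ hD))
  · obtain ⟨M, hM, h⟩ := Pool.Agent.H48.CV.ub_dil hd hs hγ h1 hs1 hb hν hp α
    exact ⟨M, hM, fun F₀ hD hm hα => stable_of hd hs hs1 hγ h2 hb hν hD (cv F₀ hD)
      (cs F₀ hD) (h F₀ hm hα (cv F₀ hD))⟩

end Pool.Agent.H85.OP.V5
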